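import Mathlib

/-!
The endomorphism `phi` of `Ext X Y i` attached to an exact autofunctor F and isomorphisms X ≅ F X,
Y ≅ F Y, and its naturality.
-/

namespace CA1492.ExtT

open CategoryTheory CategoryTheory.Abelian CategoryTheory.Limits

universe w v u

variable {C : Type u} [Category.{v} C] [Abelian C] [Linear ℂ C] [HasExt.{w} C]
variable (F : C ⥤ C) [F.Additive] [F.Linear ℂ] [PreservesFiniteLimits F] [PreservesFiniteColimits F]

/-- e ↦ (gX) ∘ F(e) ∘ (gY)⁻¹. -/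
noncomputable def phi {X Y : C} (gX : X ≅ F.obj X) (gY : Y ≅ F.obj Y) (i : ℕ) :
    Ext.{w} X Y i →ₗ[ℂ] Ext.{w} X Y i :=
  (Ext.precompOfLinear (Ext.mk₀ gX.hom) ℂ Y (zero_add i)) ∘ₗ
    (Ext.postcompOfLinear (Ext.mk₀ gY.inv) ℂ (F.obj X) (add_zero i)) ∘ₗ
      (F.mapExtLinearMap ℂ X Y i)

theorem phi_apply {X Y : C} (gX : X ≅ F.obj X) (gY : Y ≅ F.obj Y) (i : ℕ) (e : Ext.{w} X Y i) :
    phi F gX gY i e = (Ext.mk₀ gX.hom).comp
      ((e.mapExactFunctor F).comp (Ext.mk₀ gY.inv) (add_zero i)) (zero_add i) := rfl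

/-- In degree 0 it is f ↦ gX ≫ F f ≫ gY⁻¹. PROOF: `Ext.mapExactFunctor_mk₀`, `Ext.mk₀_comp_mk₀`. -/
theorem phi_zero {X Y : C} (gX : X ≅ F.obj X) (gY : Y ≅ F.obj Y) (f : X ⟶ Y) :
    phi F gX gY 0 (Ext.mk₀ f) = Ext.mk₀ (gX.hom ≫ F.map f ≫ gY.inv) := by
  rw [phi_apply, Ext.mapExactFunctor_mk₀, Ext.mk₀_comp_mk₀, Ext.mk₀_comp_mk₀]

/-- Naturality in the first variable. PROOF: `Ext.mapExactFunctor_comp`, `Ext.mapExactFunctor_mk₀`,
associativity of Ext.comp (`Ext.comp_assoc_of_...`, `Ext.mk₀_comp_mk₀`). -/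
theorem phi_precomp {X X' Y : C} (gX : X ≅ F.obj X) (gX' : X' ≅ F.obj X') (gY : Y ≅ F.obj Y)
    (f : X' ⟶ X) (hf : gX'.hom ≫ F.map f = f ≫ gX.hom) (i : ℕ) (e : Ext.{w} X Y i) :
    phi F gX' gY i ((Ext.mk₀ f).comp e (zero_add i)) =
      (Ext.mk₀ f).comp (phi F gX gY i e) (zero_add i) := by
  rw [phi_apply, phi_apply, Ext.mapExactFunctor_comp, Ext.mapExactFunctor_mk₀,
    Ext.comp_assoc_of_third_deg_zero, Ext.mk₀_comp_mk₀_assoc, hf, Ext.mk₀_comp_mk₀_assoc]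

omit [Linear ℂ C] in
theorem Phi_aux {X₁ X₃ Z₁ Z₃ Y Y' : C} (g3 : X₃ ⟶ Z₃) (g1 : X₁ ⟶ Z₁) (x : Ext.{w} X₃ X₁ 1)
    (x' : Ext.{w} Z₃ Z₁ 1)
    (hn : (Ext.mk₀ g3).comp x' (zero_add 1) = x.comp (Ext.mk₀ g1) (add_zero 1)) (i : ℕ)
    (e' : Ext.{w} Z₁ Y' i) (y : Y' ⟶ Y) :
    (Ext.mk₀ g3).comp ((x'.comp e' (rfl : 1 + i = 1 + i)).comp (Ext.mk₀ y) (add_zero (1 + i)))
      (zero_add (1 + i)) =
    x.comp ((Ext.mk₀ g1).comp (e'.comp (Ext.mk₀ y) (add_zero i)) (zero_add i)) rfl := by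
  rw [Ext.comp_assoc_of_third_deg_zero, ← Ext.comp_assoc _ _ _ (zero_add 1) rfl (by omega), hn,
    Ext.comp_assoc_of_second_deg_zero]

/-- Compatibility with the connecting map. PROOF: `Ext.mapExactFunctor_comp`,
`Ext.mapExactFunctor_extClass` and `ShortComplex.ShortExact.extClass_naturality` for the morphism of
short complexes (g1.hom, g2.hom, g3.hom) from S to S.map F. -/
theorem phi_extClass {S : ShortComplex C} (hS : S.ShortExact) {Y : C}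
    (g1 : S.X₁ ≅ F.obj S.X₁) (g2 : S.X₂ ≅ F.obj S.X₂) (g3 : S.X₃ ≅ F.obj S.X₃) (gY : Y ≅ F.obj Y)
    (h1 : g1.hom ≫ F.map S.f = S.f ≫ g2.hom) (h2 : g2.hom ≫ F.map S.g = S.g ≫ g3.hom)
    (i : ℕ) (e : Ext.{w} S.X₁ Y i) :
    phi F g3 gY (1 + i) (hS.extClass.comp e rfl) = hS.extClass.comp (phi F g1 gY i e) rfl := by
  let τ : S ⟶ S.map F :=
    { τ₁ := g1.hom
      τ₂ := g2.hom
      τ₃ := g3.hom
      comm₁₂ := h1
      comm₂₃ := h2 }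
  have hnat := ShortComplex.ShortExact.extClass_naturality.{w} hS (hS.map_of_exact F) τ
  have hnat' : (Ext.mk₀ g3.hom).comp (hS.map_of_exact F).extClass (zero_add 1) =
      hS.extClass.comp (Ext.mk₀ g1.hom) (add_zero 1) := hnat.symm
  rw [phi_apply, phi_apply, Ext.mapExactFunctor_comp, Ext.mapExactFunctor_extClass]
  exact Phi_aux g3.hom g1.hom hS.extClass (hS.map_of_exact F).extClass hnat' i
    (e.mapExactFunctor F) gY.inv

/-- Scaling g. PROOF: F linear not needed: mk₀ (μ • f) = μ • mk₀ f (`Ext.mk₀_smul`), `Ext.smul_comp`. -/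
theorem phi_smul {X Y : C} (gX gX' : X ≅ F.obj X) (gY : Y ≅ F.obj Y) (μ : ℂ)
    (h : gX'.hom = μ • gX.hom) (i : ℕ) (e : Ext.{w} X Y i) :
    phi F gX' gY i e = μ • phi F gX gY i e := by
  rw [phi_apply, phi_apply, h, Ext.mk₀_smul, Ext.smul_comp]

end CA1492.ExtT
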