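import Mathlib

/-!
Alternating sum of traces along a long exact sequence with a compatible endomorphism.
-/

namespace CA1492.ExtT

open LinearMap

/-- Equal submodules have equal traces of restrictions. -/
theorem TraceAlt_congr {V : Type*} [AddCommGroup V] [Module ℂ V] (v : Module.End ℂ V)
    {p q : Submodule ℂ V} (h : p = q) (hp : ∀ x ∈ p, v x ∈ p) (hq : ∀ x ∈ q, v x ∈ q) :
    trace ℂ p (v.restrict hp) = trace ℂ q (v.restrict hq) := by
  subst h
  rfl

/-- The trace on a subsingleton vanishes. -/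
theorem TraceAlt_sub {V : Type*} [AddCommGroup V] [Module ℂ V] [Subsingleton V]
    (v : Module.End ℂ V) : trace ℂ V v = 0 := by
  have h : v = 0 := by
    ext x
    exact Subsingleton.elim _ _
  rw [h, map_zero]

/-- For a linear map f : V → W commuting with endomorphisms v, w, the trace of v is the trace on the
kernel plus the trace on the range.
PROOF: choose a complement K' of ker f (`Submodule.exists_isCompl`); in a block form with respect to
ker f ⊕ K' the endomorphism v is upper triangular (ker f is stable), its lower diagonal block is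
conjugate to w restricted to range f via f : K' ≃ range f. One may use
`LinearMap.trace_eq_sum_trace_restrict'` or bases, or `LinearMap.trace_prod`-like block matrices, or the
quotient V / ker f. -/
theorem trace_ker_add_range {V W : Type*} [AddCommGroup V] [Module ℂ V] [FiniteDimensional ℂ V]
    [AddCommGroup W] [Module ℂ W] [FiniteDimensional ℂ W]
    (f : V →ₗ[ℂ] W) (v : Module.End ℂ V) (w : Module.End ℂ W) (h : f ∘ₗ v = w ∘ₗ f)
    (hk : ∀ x ∈ ker f, v x ∈ ker f) (hr : ∀ x ∈ range f, w x ∈ range f) :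
    trace ℂ V v = trace ℂ (ker f) (v.restrict hk) + trace ℂ (range f) (w.restrict hr) := by
  classical
  obtain ⟨s, hs⟩ := f.rangeRestrict.exists_rightInverse_of_surjective f.range_rangeRestrict
  have hs' : ∀ y : range f, f.rangeRestrict (s y) = y := fun y => LinearMap.congr_fun hs y
  have hsf : ∀ y : range f, f (s y) = y := fun y => by
    have h1 := congrArg Subtype.val (hs' y)
    exact h1
  -- the projection to the kernel
  let P : V →ₗ[ℂ] V := LinearMap.id - s ∘ₗ f.rangeRestrict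
  have hP : ∀ x, P x ∈ ker f := by
    intro x
    rw [mem_ker]
    have h1 : P x = x - s (f.rangeRestrict x) := rfl
    rw [h1, map_sub, hsf]
    exact sub_self _
  let p : V →ₗ[ℂ] ker f := P.codRestrict (ker f) hP
  let i : ker f →ₗ[ℂ] V := (ker f).subtype
  have hid : v = v ∘ₗ (i ∘ₗ p) + v ∘ₗ (s ∘ₗ f.rangeRestrict) := by
    ext x
    have h1 : (v ∘ₗ (i ∘ₗ p) + v ∘ₗ (s ∘ₗ f.rangeRestrict)) x =
        v (x - s (f.rangeRestrict x)) + v (s (f.rangeRestrict x)) := rfl
    rw [h1, ← map_add, sub_add_cancel]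
  have e1 : trace ℂ V (v ∘ₗ (i ∘ₗ p)) = trace ℂ (ker f) (v.restrict hk) := by
    rw [← LinearMap.comp_assoc, LinearMap.trace_comp_comm']
    congr 1
    ext x
    have h1 : ((p ∘ₗ (v ∘ₗ i)) x : V) = v x - s (f.rangeRestrict (v x)) := rfl
    rw [h1]
    have h2 : f.rangeRestrict (v x) = 0 := by
      apply Subtype.ext
      exact (mem_ker.1 (hk x x.2))
    rw [h2, map_zero, sub_zero]
    rfl
  have e2 : trace ℂ V (v ∘ₗ (s ∘ₗ f.rangeRestrict)) = trace ℂ (range f) (w.restrict hr) := by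
    rw [← LinearMap.comp_assoc, LinearMap.trace_comp_comm']
    congr 1
    ext y
    have h1 : ((f.rangeRestrict ∘ₗ (v ∘ₗ s)) y : W) = f (v (s y)) := rfl
    rw [h1]
    have h2 : f (v (s y)) = w (f (s y)) := LinearMap.congr_fun h (s y)
    rw [h2, hsf]
    rfl
  conv_lhs => rw [hid]
  rw [map_add, e1, e2]

/-- Long exact sequence A 0 → B 0 → C 0 → A 1 → B 1 → ... with endomorphisms.
PROOF. Let α i, β i, γ i be the traces on range (d (i-1)) ⊆ A i (α 0 = 0), range (f i) ⊆ B i,
range (g i) ⊆ C i. By `trace_ker_add_range` and exactness (kernels = ranges; equal submodules have equal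
traces of restrictions) tr a_i = α i + β i, tr b_i = β i + γ i, tr c_i = γ i + α (i+1). So
(-1)^i (tr a_i - tr b_i + tr c_i) = (-1)^i (α i + α (i+1)) telescopes to α 0 ± α N, and α N = 0 because
A N is a subsingleton. -/
theorem trace_alt (A B C : ℕ → Type*)
    [∀ i, AddCommGroup (A i)] [∀ i, Module ℂ (A i)] [∀ i, FiniteDimensional ℂ (A i)]
    [∀ i, AddCommGroup (B i)] [∀ i, Module ℂ (B i)] [∀ i, FiniteDimensional ℂ (B i)]
    [∀ i, AddCommGroup (C i)] [∀ i, Module ℂ (C i)] [∀ i, FiniteDimensional ℂ (C i)]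
    (f : ∀ i, A i →ₗ[ℂ] B i) (g : ∀ i, B i →ₗ[ℂ] C i) (d : ∀ i, C i →ₗ[ℂ] A (i + 1))
    (a : ∀ i, Module.End ℂ (A i)) (b : ∀ i, Module.End ℂ (B i)) (c : ∀ i, Module.End ℂ (C i))
    (hf0 : ker (f 0) = ⊥) (hfg : ∀ i, range (f i) = ker (g i)) (hgd : ∀ i, range (g i) = ker (d i))
    (hdf : ∀ i, range (d i) = ker (f (i + 1)))
    (haf : ∀ i, f i ∘ₗ a i = b i ∘ₗ f i) (hbg : ∀ i, g i ∘ₗ b i = c i ∘ₗ g i)
    (hcd : ∀ i, d i ∘ₗ c i = a (i + 1) ∘ₗ d i) (N : ℕ) (hN : Subsingleton (A N)) :
    ∑ i ∈ Finset.range N, (-1 : ℂ) ^ i *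
      (trace ℂ (A i) (a i) - trace ℂ (B i) (b i) + trace ℂ (C i) (c i)) = 0 := by
  have kf : ∀ i, ∀ x ∈ ker (f i), a i x ∈ ker (f i) := by
    intro i x hx
    rw [mem_ker] at hx ⊢
    have h1 : f i (a i x) = b i (f i x) := LinearMap.congr_fun (haf i) x
    rw [h1, hx, map_zero]
  have rf : ∀ i, ∀ x ∈ range (f i), b i x ∈ range (f i) := by
    intro i x hx
    obtain ⟨y, rfl⟩ := hx
    exact ⟨a i y, LinearMap.congr_fun (haf i) y⟩
  have kg : ∀ i, ∀ x ∈ ker (g i), b i x ∈ ker (g i) := by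
    intro i x hx
    rw [mem_ker] at hx ⊢
    have h1 : g i (b i x) = c i (g i x) := LinearMap.congr_fun (hbg i) x
    rw [h1, hx, map_zero]
  have rg : ∀ i, ∀ x ∈ range (g i), c i x ∈ range (g i) := by
    intro i x hx
    obtain ⟨y, rfl⟩ := hx
    exact ⟨b i y, LinearMap.congr_fun (hbg i) y⟩
  have kd : ∀ i, ∀ x ∈ ker (d i), c i x ∈ ker (d i) := by
    intro i x hx
    rw [mem_ker] at hx ⊢
    have h1 : d i (c i x) = a (i + 1) (d i x) := LinearMap.congr_fun (hcd i) x
    rw [h1, hx, map_zero]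
  have rd : ∀ i, ∀ x ∈ range (d i), a (i + 1) x ∈ range (d i) := by
    intro i x hx
    obtain ⟨y, rfl⟩ := hx
    exact ⟨c i y, LinearMap.congr_fun (hcd i) y⟩
  have ta := fun i => trace_ker_add_range (f i) (a i) (b i) (haf i) (kf i) (rf i)
  have tb := fun i => trace_ker_add_range (g i) (b i) (c i) (hbg i) (kg i) (rg i)
  have tc := fun i => trace_ker_add_range (d i) (c i) (a (i + 1)) (hcd i) (kd i) (rd i)
  have e1 := fun i => TraceAlt_congr (b i) (hfg i) (rf i) (kg i)
  have e2 := fun i => TraceAlt_congr (c i) (hgd i) (rg i) (kd i)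
  have e3 := fun i => TraceAlt_congr (a (i + 1)) (hdf i) (rd i) (kf (i + 1))
  have key : ∀ n : ℕ, ∑ i ∈ Finset.range n, (-1 : ℂ) ^ i *
      (trace ℂ (A i) (a i) - trace ℂ (B i) (b i) + trace ℂ (C i) (c i)) =
      trace ℂ (ker (f 0)) ((a 0).restrict (kf 0)) -
        (-1 : ℂ) ^ n * trace ℂ (ker (f n)) ((a n).restrict (kf n)) := by
    intro n
    induction n with
    | zero => simp
    | succ n ih =>
      rw [Finset.sum_range_succ, ih, ta n, tb n, tc n, e1 n, e2 n, e3 n, pow_succ]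
      ring
  rw [key N]
  have z0 : trace ℂ (ker (f 0)) ((a 0).restrict (kf 0)) = 0 := by
    have : Subsingleton (ker (f 0)) := by
      rw [hf0]
      infer_instance
    exact TraceAlt_sub _
  have zN : trace ℂ (ker (f N)) ((a N).restrict (kf N)) = 0 := by
    exact TraceAlt_sub _
  rw [z0, zN, mul_zero, sub_zero]

end CA1492.ExtT
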