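import Mathlib
import Pool.Agent.Lib.MP_ca1492_al.Ext.Phi
import Pool.Agent.Lib.MP_ca1492_al.Ext.TraceAlt

/-!
The Euler characteristic of traces `EP` and its additivity.
-/

namespace CA1492.ExtT

open CategoryTheory CategoryTheory.Abelian CategoryTheory.Limits

universe w v u

section fin
variable {C : Type u} [Category.{v} C] [Abelian C] [Linear ℂ C] [HasExt.{w} C]

theorem EPadd_finite {U V W : Type*} [AddCommGroup U] [Module ℂ U] [AddCommGroup V] [Module ℂ V]
    [AddCommGroup W] [Module ℂ W] [Module.Finite ℂ U] [Module.Finite ℂ W] (a : U →ₗ[ℂ] V)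
    (b : V →ₗ[ℂ] W) (h : ∀ x, b x = 0 → ∃ u, a u = x) : Module.Finite ℂ V := by
  have h1 : LinearMap.ker b ≤ LinearMap.range a := fun x hx => h x hx
  have h2 : Module.Finite ℂ (LinearMap.ker b) := Submodule.finiteDimensional_of_le h1
  have h3 : Module.Finite ℂ (V ⧸ LinearMap.ker b) :=
    Module.Finite.equiv (b.quotKerEquivRange).symm
  exact Module.Finite.of_submodule_quotient (LinearMap.ker b)

theorem EPadd_subs {U V W : Type*} [AddCommGroup U] [Module ℂ U] [AddCommGroup V] [Module ℂ V]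
    [AddCommGroup W] [Module ℂ W] [Subsingleton U] [Subsingleton W] (a : U →ₗ[ℂ] V)
    (b : V →ₗ[ℂ] W) (h : ∀ x, b x = 0 → ∃ u, a u = x) : Subsingleton V := by
  refine ⟨fun x y => ?_⟩
  have h1 : ∀ z : V, z = 0 := by
    intro z
    obtain ⟨u, hu⟩ := h z (Subsingleton.elim _ _)
    rw [← hu, Subsingleton.elim u 0, map_zero]
  rw [h1 x, h1 y]

theorem EPadd_trace {V : Type*} [AddCommGroup V] [Module ℂ V] [Subsingleton V]
    (f : V →ₗ[ℂ] V) : LinearMap.trace ℂ V f = 0 := by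
  have h : f = 0 := by
    ext x
    exact Subsingleton.elim _ _
  rw [h, map_zero]

theorem EPadd_e2 {S : ShortComplex C} (hS : S.ShortExact) (Y : C) (i : ℕ) :
    LinearMap.range (Ext.precompOfLinear (Ext.mk₀.{w} S.g) ℂ Y (zero_add i)) =
      LinearMap.ker (Ext.precompOfLinear (Ext.mk₀.{w} S.f) ℂ Y (zero_add i)) := by
  have h := Ext.contravariant_sequence_exact₂' hS Y i
  rw [ShortComplex.ab_exact_iff_function_exact] at h
  ext x
  exact ((h x).symm)

theorem EPadd_e1 {S : ShortComplex C} (hS : S.ShortExact) (Y : C) (i : ℕ) :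
    LinearMap.range (Ext.precompOfLinear (Ext.mk₀.{w} S.f) ℂ Y (zero_add i)) =
      LinearMap.ker (Ext.precompOfLinear hS.extClass ℂ Y (add_comm 1 i)) := by
  have h := Ext.contravariant_sequence_exact₁' hS Y i (i + 1) (add_comm 1 i)
  rw [ShortComplex.ab_exact_iff_function_exact] at h
  ext x
  exact ((h x).symm)

theorem EPadd_e3 {S : ShortComplex C} (hS : S.ShortExact) (Y : C) (i : ℕ) :
    LinearMap.range (Ext.precompOfLinear hS.extClass ℂ Y (add_comm 1 i)) =
      LinearMap.ker (Ext.precompOfLinear (Ext.mk₀.{w} S.g) ℂ Y (zero_add (i + 1))) := by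
  have h := Ext.contravariant_sequence_exact₃' hS Y i (i + 1) (add_comm 1 i)
  rw [ShortComplex.ab_exact_iff_function_exact] at h
  ext x
  exact ((h x).symm)

/-- All Ext groups are finite dimensional and vanish in degrees ≥ N. -/
def FinExt (X Y : C) (N : ℕ) : Prop :=
  (∀ i, Module.Finite ℂ (Ext.{w} X Y i)) ∧ (∀ i, N ≤ i → Subsingleton (Ext.{w} X Y i))

/-- Two out of three, with explicit bounds.
PROOF: the contravariant long exact sequence (`Ext.contravariant_sequence_exact₁/₂/₃`) with the linear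
maps `Ext.precompOfLinear`; a module with a finite submodule and finite quotient is finite. -/
theorem FinExt_X₃ {S : ShortComplex C} (hS : S.ShortExact) {Y : C} {N : ℕ}
    (h1 : FinExt.{w} S.X₁ Y N) (h2 : FinExt.{w} S.X₂ Y N) : FinExt.{w} S.X₃ Y (N + 1) := by
  have hepi : Epi S.g := hS.epi_g
  refine ⟨fun i => ?_, fun i hi => ?_⟩
  · cases i with
    | zero =>
      have := h2.1 0
      exact Module.Finite.of_injective (Ext.precompOfLinear (Ext.mk₀.{w} S.g) ℂ Y (zero_add 0))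
        (Ext.precomp_mk₀_injective_of_epi Y S.g)
    | succ i =>
      have := h1.1 i
      have := h2.1 (i + 1)
      exact EPadd_finite (Ext.precompOfLinear hS.extClass ℂ Y (add_comm 1 i))
        (Ext.precompOfLinear (Ext.mk₀.{w} S.g) ℂ Y (zero_add (i + 1)))
        (fun x hx => (EPadd_e3 hS Y i).ge hx)
  · obtain ⟨j, rfl⟩ : ∃ j, i = j + 1 := ⟨i - 1, by omega⟩
    have := h1.2 j (by omega)
    have := h2.2 (j + 1) (by omega)
    exact EPadd_subs (Ext.precompOfLinear hS.extClass ℂ Y (add_comm 1 j))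
      (Ext.precompOfLinear (Ext.mk₀.{w} S.g) ℂ Y (zero_add (j + 1)))
      (fun x hx => (EPadd_e3 hS Y j).ge hx)

theorem FinExt_X₂ {S : ShortComplex C} (hS : S.ShortExact) {Y : C} {N : ℕ}
    (h1 : FinExt.{w} S.X₁ Y N) (h3 : FinExt.{w} S.X₃ Y N) : FinExt.{w} S.X₂ Y N := by
  refine ⟨fun i => ?_, fun i hi => ?_⟩
  · have := h1.1 i
    have := h3.1 i
    exact EPadd_finite (Ext.precompOfLinear (Ext.mk₀.{w} S.g) ℂ Y (zero_add i))
      (Ext.precompOfLinear (Ext.mk₀.{w} S.f) ℂ Y (zero_add i))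
      (fun x hx => (EPadd_e2 hS Y i).ge hx)
  · have := h1.2 i hi
    have := h3.2 i hi
    exact EPadd_subs (Ext.precompOfLinear (Ext.mk₀.{w} S.g) ℂ Y (zero_add i))
      (Ext.precompOfLinear (Ext.mk₀.{w} S.f) ℂ Y (zero_add i))
      (fun x hx => (EPadd_e2 hS Y i).ge hx)

end fin

variable {C : Type u} [Category.{v} C] [Abelian C] [Linear ℂ C] [HasExt.{w} C]
variable (F : C ⥤ C) [F.Additive] [F.Linear ℂ] [PreservesFiniteLimits F] [PreservesFiniteColimits F]

/-- Alternating sum of the traces of `phi`. -/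
noncomputable def EP {X Y : C} (gX : X ≅ F.obj X) (gY : Y ≅ F.obj Y) (N : ℕ) : ℂ :=
  ∑ i ∈ Finset.range N, (-1 : ℂ) ^ i * LinearMap.trace ℂ (Ext.{w} X Y i) (phi F gX gY i)

/-- Independence of the bound. PROOF: the additional terms are traces on zero spaces. -/
theorem EP_bound {X Y : C} (gX : X ≅ F.obj X) (gY : Y ≅ F.obj Y) {N N' : ℕ} (h : N ≤ N')
    (hN : FinExt.{w} X Y N) : EP.{w} F gX gY N' = EP.{w} F gX gY N := by
  unfold EP
  symm
  apply Finset.sum_subset
  · intro i hi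
    rw [Finset.mem_range] at hi ⊢
    omega
  · intro i _ hi
    rw [Finset.mem_range] at hi
    have := hN.2 i (by omega)
    rw [EPadd_trace, mul_zero]

/-- If all Ext groups vanish, EP is 0. -/
theorem EP_eq_zero {X Y : C} (gX : X ≅ F.obj X) (gY : Y ≅ F.obj Y) (N : ℕ)
    (h : ∀ i, Subsingleton (Ext.{w} X Y i)) : EP.{w} F gX gY N = 0 := by
  unfold EP
  apply Finset.sum_eq_zero
  intro i _
  have := h i
  rw [EPadd_trace, mul_zero]

theorem EPadd_cd {S : ShortComplex C} (hS : S.ShortExact) {Y : C}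
    (g1 : S.X₁ ≅ F.obj S.X₁) (g2 : S.X₂ ≅ F.obj S.X₂) (g3 : S.X₃ ≅ F.obj S.X₃) (gY : Y ≅ F.obj Y)
    (h1 : g1.hom ≫ F.map S.f = S.f ≫ g2.hom) (h2 : g2.hom ≫ F.map S.g = S.g ≫ g3.hom)
    (i k : ℕ) (hk : 1 + i = k) (e : Ext.{w} S.X₁ Y i) :
    phi F g3 gY k (hS.extClass.comp e hk) = hS.extClass.comp (phi F g1 gY i e) hk := by
  subst hk
  exact phi_extClass F hS g1 g2 g3 gY h1 h2 i e

/-- Additivity.
PROOF: `trace_alt` with A i = Ext S.X₃ Y i, B i = Ext S.X₂ Y i, C i = Ext S.X₁ Y i, the maps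
precomposition with mk₀ S.g, mk₀ S.f and hS.extClass (up to the cast 1 + i = i + 1: use
`Ext.precompOfLinear hS.extClass ℂ Y (add_comm 1 i)`), exactness
`Ext.contravariant_sequence_exact₁/₂/₃` and injectivity at the start
(`Ext.precomp_mk₀_injective_of_epi`), and `phi_precomp`, `phi_extClass`. -/
theorem EP_add {S : ShortComplex C} (hS : S.ShortExact) {Y : C}
    (g1 : S.X₁ ≅ F.obj S.X₁) (g2 : S.X₂ ≅ F.obj S.X₂) (g3 : S.X₃ ≅ F.obj S.X₃) (gY : Y ≅ F.obj Y)
    (h1 : g1.hom ≫ F.map S.f = S.f ≫ g2.hom) (h2 : g2.hom ≫ F.map S.g = S.g ≫ g3.hom)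
    (N : ℕ) (f1 : FinExt.{w} S.X₁ Y N) (f2 : FinExt.{w} S.X₂ Y N) (f3 : FinExt.{w} S.X₃ Y N) :
    EP.{w} F g2 gY N = EP.{w} F g1 gY N + EP.{w} F g3 gY N := by
  have hepi : Epi S.g := hS.epi_g
  have i1 := f1.1
  have i2 := f2.1
  have i3 := f3.1
  have hmain := trace_alt (fun i => Ext.{w} S.X₃ Y i) (fun i => Ext.{w} S.X₂ Y i)
    (fun i => Ext.{w} S.X₁ Y i)
    (fun i => Ext.precompOfLinear (Ext.mk₀.{w} S.g) ℂ Y (zero_add i))
    (fun i => Ext.precompOfLinear (Ext.mk₀.{w} S.f) ℂ Y (zero_add i))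
    (fun i => Ext.precompOfLinear hS.extClass ℂ Y (add_comm 1 i))
    (fun i => phi F g3 gY i) (fun i => phi F g2 gY i) (fun i => phi F g1 gY i)
    (LinearMap.ker_eq_bot.mpr (Ext.precomp_mk₀_injective_of_epi Y S.g))
    (fun i => EPadd_e2 hS Y i) (fun i => EPadd_e1 hS Y i) (fun i => EPadd_e3 hS Y i)
    (fun i => LinearMap.ext fun e => (phi_precomp F g3 g2 gY S.g h2 i e).symm)
    (fun i => LinearMap.ext fun e => (phi_precomp F g2 g1 gY S.f h1 i e).symm)
    (fun i => LinearMap.ext fun e =>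
      (EPadd_cd F hS g1 g2 g3 gY h1 h2 i (i + 1) (add_comm 1 i) e).symm)
    N (f3.2 N le_rfl)
  simp only [mul_add, mul_sub, Finset.sum_add_distrib, Finset.sum_sub_distrib] at hmain
  unfold EP
  linear_combination (-1 : ℂ) * hmain

end CA1492.ExtT
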